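import Pool.Agent.MWBN.Stmts

/-! Squad MWBN, row DSN (helper76) -/

set_option autoImplicit false

namespace Pool.Agent.MWBN.H76

theorem dsn (h1 : MWHP.TlmnStmt) (h2 : SwnStmt) (h3 : EdnStmt) : DsnStmt :=
  fun n V β hV h => h1 n β h.toClXn.toBasN (h2 n V β hV h) (h3 n V β hV h)

end Pool.Agent.MWBN.H76
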